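import Mathlib
import Pool.Agent.W788.BK.Stm

/-! Factorization of one variable. -/

set_option autoImplicit false

open MeasureTheory

namespace Pool.Agent.W540.BK

open Pool.Agent.W788.BK

theorem map_update (m : Type) [Fintype m] [DecidableEq m] (μ : Measure ℝ)
    [IsProbabilityMeasure μ] (y : m) :
    (((PP m μ).prod μ).map fun p : (m → ℝ) × ℝ => Function.update p.1 y p.2) = PP m μ := by
  have hmeas : Measurable fun p : (m → ℝ) × ℝ => Function.update p.1 y p.2 := by
    refine measurable_pi_lambda _ fun z => ?_
    by_cases hz : z = y
    · subst hz
      simpa using measurable_snd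
    · simp only [Function.update_of_ne hz]
      exact (measurable_pi_apply z).comp measurable_fst
  unfold PP
  refine (Measure.pi_eq fun s hs => ?_).symm
  rw [Measure.map_apply hmeas (MeasurableSet.univ_pi hs)]
  have hpre : (fun p : (m → ℝ) × ℝ => Function.update p.1 y p.2) ⁻¹' (Set.univ.pi s) =
      (Set.univ.pi (Function.update s y Set.univ)) ×ˢ s y := by
    ext ⟨V, t⟩
    simp only [Set.mem_preimage, Set.mem_pi, Set.mem_univ, true_implies, Set.mem_prod]
    constructor
    · intro h
      refine ⟨fun z => ?_, ?_⟩
      · by_cases hz : z = y
        · subst hz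
          simp
        · have := h z
          simpa [Function.update_of_ne hz] using this
      · simpa using h y
    · rintro ⟨h1, h2⟩ z
      by_cases hz : z = y
      · subst hz
        simpa using h2
      · have := h1 z
        simpa [Function.update_of_ne hz] using this
  rw [hpre, Measure.prod_prod, Measure.pi_pi]
  have h1 : ∀ z, μ (Function.update s y Set.univ z) =
      Function.update (fun z => μ (s z)) y 1 z := by
    intro z
    by_cases hz : z = y
    · subst hz
      simp
    · simp [Function.update_of_ne hz]
  simp_rw [h1]
  rw [Finset.prod_update_of_mem (Finset.mem_univ y), one_mul, mul_comm, Finset.sdiff_singleton_eq_erase,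
    Finset.mul_prod_erase Finset.univ (fun z => μ (s z)) (Finset.mem_univ y)]

/-- **FAC.** -/
theorem fac : S_FAC := by
  intro m _ _ μ _ y h F hh hF hupd
  have hmeas : Measurable fun p : (m → ℝ) × ℝ => Function.update p.1 y p.2 := by
    refine measurable_pi_lambda _ fun z => ?_
    by_cases hz : z = y
    · subst hz
      simpa using measurable_snd
    · simp only [Function.update_of_ne hz]
      exact (measurable_pi_apply z).comp measurable_fst
  have hcont : Continuous fun V : m → ℝ => (h (V y) : ℂ) * F V :=
    (Complex.continuous_ofReal.comp (hh.comp (continuous_apply y))).mul hF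
  have h1 : ∫ V, (h (V y) : ℂ) * F V ∂(PP m μ) =
      ∫ p : (m → ℝ) × ℝ, F p.1 * (h p.2 : ℂ) ∂((PP m μ).prod μ) := by
    conv_lhs => rw [← map_update m μ y]
    rw [integral_map hmeas.aemeasurable hcont.aestronglyMeasurable]
    refine integral_congr_ae (Filter.Eventually.of_forall fun p => ?_)
    simp only [Function.update_self, hupd]
    ring
  have : SFinite (PP m μ) := by
    unfold PP
    infer_instance
  rw [h1, integral_prod_mul (fun V => F V) (fun t => (h t : ℂ)), integral_complex_ofReal, mul_comm]

end Pool.Agent.W540.BK
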